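import Pool.Agent.Helper89.ME.KDefs

/-!
# The JAMS construction: definitions

A number `n` codes the fraction `n.unpair.1 / (n.unpair.2 + 1)`. A history is a list of actions
`(a, b, p₁, p₂)`: the upper value of `a` is lowered to at most `p₁` and the lower value of `b` is
raised to at least `p₂`. So (at a stage with history `h`) `α_a = min {e.p₁ : e ∈ h, e.a = a}`
(`+∞` if there is none) and `β_b = max {e.p₂ : e ∈ h, e.b = b}` (`-∞` if there is none); all the
values lie strictly between `0` and `1`.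
-/

set_option autoImplicit false

namespace ME.JD

/-- comparison of the fractions coded by two numbers -/
def vlt (x y : ℕ) : Prop := x.unpair.1 * (y.unpair.2 + 1) < y.unpair.1 * (x.unpair.2 + 1)

/-- the value of a code -/
def val (x : ℕ) : ℚ := (x.unpair.1 : ℚ) / ((x.unpair.2 : ℚ) + 1)

/-- the mediant -/
def med (x y : ℕ) : ℕ := Nat.pair (x.unpair.1 + y.unpair.1) (x.unpair.2 + y.unpair.2 + 1)

/-- code of `1` (the code of `0` is `0`) -/
def one : ℕ := Nat.pair 1 0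

theorem vlt_iff (x y : ℕ) : vlt x y ↔ val x < val y := by
  unfold vlt val
  have h1 : (0 : ℚ) < (x.unpair.2 : ℚ) + 1 := by positivity
  have h2 : (0 : ℚ) < (y.unpair.2 : ℚ) + 1 := by positivity
  rw [div_lt_div_iff₀ h1 h2]
  exact_mod_cast Iff.rfl

theorem val_zero : val 0 = 0 := by simp [val]

theorem val_one : val one = 1 := by simp [val, one]

theorem lt_med {x y : ℕ} (h : val x < val y) : val x < val (med x y) := by
  rw [← vlt_iff] at h ⊢
  unfold vlt med at *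
  simp only [Nat.unpair_pair]
  nlinarith

theorem med_lt {x y : ℕ} (h : val x < val y) : val (med x y) < val y := by
  rw [← vlt_iff] at h ⊢
  unfold vlt med at *
  simp only [Nat.unpair_pair]
  nlinarith

/-- an action `(a, b, p₁, p₂)` -/
abbrev Ent : Type := ℕ × ℕ × ℕ × ℕ

/-- the stage `s` approximation of `W` -/
def wst (q : ℕ × ℕ → ℕ → Prop) (s a b : ℕ) : Prop := ∃ m < s, q (a, b) m

theorem wst_mono {q : ℕ × ℕ → ℕ → Prop} {s t a b : ℕ} (h : s ≤ t) (hw : wst q s a b) :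
    wst q t a b := by
  obtain ⟨m, hm, hq⟩ := hw
  exact ⟨m, by omega, hq⟩

/-- `α_a < β_b` -/
def inW (h : List Ent) (a b : ℕ) : Prop :=
  ∃ e ∈ h, ∃ f ∈ h, f.1 = a ∧ e.2.1 = b ∧ vlt f.2.2.1 e.2.2.2

/-- `m_a < p`, where `m_a = max {β_b : (a, b) ∉ W_s}` -/
def lowOK (q : ℕ × ℕ → ℕ → Prop) (s : ℕ) (h : List Ent) (a p : ℕ) : Prop :=
  ∀ e ∈ h, wst q s a e.2.1 ∨ vlt e.2.2.2 p

/-- `p < M_b`, where `M_b = min {α_a : (a, b) ∉ W_s}` -/
def highOK (q : ℕ × ℕ → ℕ → Prop) (s : ℕ) (h : List Ent) (b p : ℕ) : Prop :=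
  ∀ e ∈ h, wst q s e.1 b ∨ vlt p e.2.2.1

/-- the action `e` is permitted at stage `s` with history `h` -/
structure Perm (q : ℕ × ℕ → ℕ → Prop) (s : ℕ) (h : List Ent) (e : Ent) : Prop where
  w : wst q s e.1 e.2.1
  nin : ¬ inW h e.1 e.2.1
  pos : vlt 0 e.2.2.1
  lt : vlt e.2.2.1 e.2.2.2
  lt_one : vlt e.2.2.2 one
  low : lowOK q s h e.1 e.2.2.1
  high : highOK q s h e.2.1 e.2.2.2
  fresh : ∀ f ∈ h, (vlt f.2.2.2 e.2.2.1 ∨ vlt e.2.2.1 f.2.2.2) ∧
    (vlt f.2.2.1 e.2.2.2 ∨ vlt e.2.2.2 f.2.2.1)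
  wait : ∀ a < max e.1 e.2.1, ∀ b < max e.1 e.2.1, wst q s a b → ¬ inW h a b →
    (wst q s e.1 b ∨ wst q s a e.2.1) ∧
    (wst q s e.1 b ∨ lowOK q s h a e.2.2.1) ∧
    (wst q s a e.2.1 ∨ highOK q s h b e.2.2.2)

/-- all values used so far -/
def vals (h : List Ent) : List ℕ :=
  0 :: one :: (h.map (fun e => e.2.2.1) ++ h.map (fun e => e.2.2.2))

/-- the actions considered at stage `s`: they concern the pair coded by `s.unpair.1` -/
def cands (s : ℕ) (h : List Ent) : List Ent :=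
  (vals h).flatMap (fun lo => (vals h).map (fun hi =>
    (s.unpair.1.unpair.1, s.unpair.1.unpair.2, med lo hi, med (med lo hi) hi)))

open Classical in
/-- one step -/
noncomputable def next (q : ℕ × ℕ → ℕ → Prop) (s : ℕ) (h : List Ent) : List Ent :=
  match (cands s h).find? (fun e => decide (Perm q s h e)) with
  | none => h
  | some e => e :: h

/-- the history at stage `s` -/
noncomputable def Hist (q : ℕ × ℕ → ℕ → Prop) : ℕ → List Ent
  | 0 => []
  | s + 1 => next q s (Hist q s)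

/-- the open upper cut of `α_a` -/
def U (q : ℕ × ℕ → ℕ → Prop) (a x : ℕ) : Prop := ∃ s, ∃ e ∈ Hist q s, e.1 = a ∧ vlt e.2.2.1 x

/-- the open lower cut of `β_b` -/
def L (q : ℕ × ℕ → ℕ → Prop) (b x : ℕ) : Prop := ∃ s, ∃ e ∈ Hist q s, e.2.1 = b ∧ vlt x e.2.2.2

end ME.JD
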