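import Pool.Agent.Helper91.ME.JComp

/-!
# The JAMS theorem: reduction to the construction
-/

set_option autoImplicit false

namespace ME.JD

variable {q : ℕ × ℕ → ℕ → Prop}

theorem next_sub_red (s : ℕ) (h : List Ent) : h ⊆ next q s h := by
  classical
  unfold next
  cases (cands s h).find? (fun e => decide (Perm q s h e)) with
  | none => exact List.Subset.refl _
  | some e => exact List.subset_cons_self _ _

theorem Hist_mono_red {s t : ℕ} (h : s ≤ t) : Hist q s ⊆ Hist q t := by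
  induction h with
  | refl => exact List.Subset.refl _
  | step _ ih => exact fun e he => next_sub_red _ _ (ih he)

theorem U_up {a x y : ℕ} (h : val x ≤ val y) (hU : U q a x) : U q a y := by
  obtain ⟨s, e, he, h1, h2⟩ := hU
  refine ⟨s, e, he, h1, ?_⟩
  rw [vlt_iff] at h2 ⊢
  exact h2.trans_le h

theorem L_down {b x y : ℕ} (h : val x ≤ val y) (hL : L q b y) : L q b x := by
  obtain ⟨s, e, he, h1, h2⟩ := hL
  refine ⟨s, e, he, h1, ?_⟩
  rw [vlt_iff] at h2 ⊢
  exact h.trans_lt h2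

theorem inW_of {a b x : ℕ} (hU : U q a x) (hL : L q b x) : ∃ s, inW (Hist q s) a b := by
  obtain ⟨s, e, he, h1, h2⟩ := hU
  obtain ⟨t, f, hf, h3, h4⟩ := hL
  refine ⟨max s t, f, Hist_mono_red (le_max_right _ _) hf, e, Hist_mono_red (le_max_left _ _) he, h1, h3,
    ?_⟩
  rw [vlt_iff] at h2 h4 ⊢
  exact h2.trans h4

theorem exists_of_inW {a b s : ℕ} (h : inW (Hist q s) a b) : ∃ x, U q a x ∧ L q b x := by
  obtain ⟨e, he, f, hf, h1, h2, h3⟩ := h
  rw [vlt_iff] at h3
  refine ⟨med f.2.2.1 e.2.2.2, ⟨s, f, hf, h1, ?_⟩, ⟨s, e, he, h2, ?_⟩⟩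
  · rw [vlt_iff]; exact lt_med h3
  · rw [vlt_iff]; exact med_lt h3

/-- The reduction. -/
theorem jams_of (hq : PrimrecRel q) (hinv : ∀ s a b, inW (Hist q s) a b → wst q s a b)
    (A B : Set ℕ) (hc : ∀ a b m, q (a, b) m → a ∈ A ∨ b ∈ B)
    (hV : ∀ a ∈ A, ∀ b ∈ B, ∃ s, inW (Hist q s) a b)
    (hA : ¬ RE (· ∈ A)) (hB : ¬ RE (· ∈ B)) :
    ∃ C : Set ℕ, KPair C Cᶜ ∧ ER A C ∧ ER B Cᶜ := by
  classical
  have hW : ∀ a b x, U q a x → L q b x → ∃ m, q (a, b) m := by
    intro a b x h1 h2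
    obtain ⟨s, hs⟩ := inW_of h1 h2
    obtain ⟨m, _, hm⟩ := hinv s a b hs
    exact ⟨m, hm⟩
  have hREW : RE (fun p : ℕ × ℕ => ∃ m, q p m) := ⟨q, hq, fun _ => Iff.rfl⟩
  -- W' is RE
  have hREW' : RE (fun p : ℕ × ℕ => ∃ x, U q p.1 x ∧ L q p.2 x) := by
    have h1 : RE (fun y : (ℕ × ℕ) × ℕ => U q y.1.1 y.2) :=
      (RE_U hq).subst (f := fun y : (ℕ × ℕ) × ℕ => (y.1.1, y.2))
        ((Primrec.fst.comp Primrec.fst).pair Primrec.snd)
    have h2 : RE (fun y : (ℕ × ℕ) × ℕ => L q y.1.2 y.2) :=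
      (RE_L hq).subst (f := fun y : (ℕ × ℕ) × ℕ => (y.1.2, y.2))
        ((Primrec.snd.comp Primrec.fst).pair Primrec.snd)
    exact (h1.and h2).ex_nat
  -- facts (i)
  have hi1 : ∀ b, b ∉ B → ∃ a ∈ A, ¬ ∃ m, q (a, b) m := by
    intro b hb
    by_contra hcon
    push Not at hcon
    apply hA
    refine (hREW.subst (f := fun a : ℕ => (a, b)) (Primrec.id.pair (Primrec.const b))).of_iff ?_
    intro a
    constructor
    · intro ha; exact hcon a ha
    · rintro ⟨m, hm⟩
      exact (hc a b m hm).resolve_right hb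
  have hi2 : ∀ a, a ∉ A → ∃ b ∈ B, ¬ ∃ m, q (a, b) m := by
    intro a ha
    by_contra hcon
    push Not at hcon
    apply hB
    refine (hREW.subst (f := fun b : ℕ => (a, b)) ((Primrec.const a).pair Primrec.id)).of_iff ?_
    intro b
    constructor
    · intro hb; exact hcon b hb
    · rintro ⟨m, hm⟩
      exact (hc a b m hm).resolve_left ha
  -- facts (ii)
  have hii1 : ∀ a₀ ∈ A, ∃ a ∈ A, ∃ x, U q a₀ x ∧ ¬ U q a x := by
    intro a₀ ha₀
    by_contra hcon
    push Not at hcon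
    apply hB
    refine (hREW'.subst (f := fun b : ℕ => (a₀, b))
      ((Primrec.const a₀).pair Primrec.id)).of_iff ?_
    intro b
    constructor
    · intro hb
      obtain ⟨s, hs⟩ := hV a₀ ha₀ b hb
      exact exists_of_inW hs
    · rintro ⟨x, h1, h2⟩
      by_contra hb
      obtain ⟨a, ha, hab⟩ := hi1 b hb
      exact hab (hW a b x (hcon a ha x h1) h2)
  have hii2 : ∀ b₀ ∈ B, ∃ b ∈ B, ∃ x, L q b₀ x ∧ ¬ L q b x := by
    intro b₀ hb₀
    by_contra hcon
    push Not at hcon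
    apply hA
    refine (hREW'.subst (f := fun a : ℕ => (a, b₀))
      (Primrec.id.pair (Primrec.const b₀))).of_iff ?_
    intro a
    constructor
    · intro ha
      obtain ⟨s, hs⟩ := hV a ha b₀ hb₀
      exact exists_of_inW hs
    · rintro ⟨x, h1, h2⟩
      by_contra ha
      obtain ⟨b, hb, hab⟩ := hi2 a ha
      exact hab (hW a b x h1 (hcon b hb x h2))
  refine ⟨{x | ∃ a ∈ A, ¬ U q a x}, ?_, ?_, ?_⟩
  · refine ⟨fun p => vlt p.1 p.2, RE.prim (prim_vlt Primrec.fst Primrec.snd), ?_, ?_⟩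
    · rintro x ⟨a, ha, hx⟩ y hy
      have hy' : U q a y := by
        by_contra h
        exact hy ⟨a, ha, h⟩
      change vlt x y
      rw [vlt_iff]
      by_contra h
      exact hx (U_up (not_lt.mp h) hy')
    · intro x y hxy
      change vlt x y at hxy
      rw [vlt_iff] at hxy
      by_cases hy : y ∈ {x | ∃ a ∈ A, ¬ U q a x}
      · left
        obtain ⟨a, ha, h⟩ := hy
        exact ⟨a, ha, fun h' => h (U_up hxy.le h')⟩
      · right
        exact hy
  · refine ⟨fun X => {a | ∃ x, x ∈ X ∧ U q a x}, ?_, ?_⟩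
    · have h1 : EP (fun (X : Set ℕ) (y : ℕ × ℕ) => y.2 ∈ X ∧ U q y.1 y.2) :=
        EP.and (EP.mem Primrec.snd) (EP.re (RE_U hq))
      exact h1.ex
    · ext a
      constructor
      · rintro ⟨x, ⟨a', ha', hx⟩, hU⟩
        by_contra ha
        obtain ⟨b, hb, hab⟩ := hi2 a ha
        obtain ⟨s, hs⟩ := hV a' ha' b hb
        obtain ⟨y, hy1, hy2⟩ := exists_of_inW hs
        have hxy : val x ≤ val y := by
          by_contra h
          exact hx (U_up (not_le.mp h).le hy1)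
        exact hab (hW a b y (U_up hxy hU) hy2)
      · intro ha
        obtain ⟨a', ha', x, h1, h2⟩ := hii1 a ha
        exact ⟨x, ⟨a', ha', h2⟩, h1⟩
  · refine ⟨fun X => {b | ∃ x, x ∈ X ∧ L q b x}, ?_, ?_⟩
    · have h1 : EP (fun (X : Set ℕ) (y : ℕ × ℕ) => y.2 ∈ X ∧ L q y.1 y.2) :=
        EP.and (EP.mem Primrec.snd) (EP.re (RE_L hq))
      exact h1.ex
    · ext b
      constructor
      · rintro ⟨x, hx, hL⟩
        by_contra hb
        obtain ⟨a, ha, hab⟩ := hi1 b hb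
        have : U q a x := by
          by_contra h
          exact hx ⟨a, ha, h⟩
        exact hab (hW a b x this hL)
      · intro hb
        obtain ⟨b', hb', x, h1, h2⟩ := hii2 b hb
        refine ⟨x, ?_, h1⟩
        rintro ⟨a, ha, hU⟩
        obtain ⟨s, hs⟩ := hV a ha b' hb'
        obtain ⟨y, hy1, hy2⟩ := exists_of_inW hs
        apply hU
        refine U_up (x := y) ?_ hy1
        by_contra h
        exact h2 (L_down (not_le.mp h).le hy2)

end ME.JD
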